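import Pool.Agent.N89.HL.Stm
import Pool.Agent.N572.HX.TSZ
import Pool.Agent.N614.BD.LNO

/-!
# The number of the polynomials over a finite field with given Frobenius (helper607)
-/

set_option autoImplicit false

namespace Pool.Agent.N607.HL.POC

open Polynomial Pool.Agent.N89.HX Pool.Agent.N89.HL

theorem pol_coeff {A : Type} [CommRing A] {e : ℕ} (f : Fin (e + 1) → A) (n : ℕ) :
    (pol f).coeff n = if h : n < e + 1 then f ⟨n, h⟩ else 0 := by
  unfold pol
  rw [finsetSum_coeff]
  simp only [coeff_C_mul, coeff_X_pow]
  split_ifs with h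
  · rw [Finset.sum_eq_single ⟨n, h⟩]
    · simp
    · intro i _ hi
      rw [if_neg, mul_zero]
      intro h'
      exact hi (Fin.ext h'.symm)
    · intro h'; exact absurd (Finset.mem_univ _) h'
  · refine Finset.sum_eq_zero fun i _ => ?_
    rw [if_neg, mul_zero]
    intro h'
    exact h (h' ▸ i.2)

section

variable {k Ω : Type} [Field k] [Fintype k] [Field Ω] [Algebra k Ω] {e : ℕ}

/-- a polynomial whose roots are permuted by Frobenius has coefficients in `k` -/
theorem descend (σ : Equiv.Perm (Fin e)) (x : Fin e → Ω)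
    (hx : ∀ i, x i ^ Fintype.card k = x (σ i)) (a : k) : ∃ z : Fin (e + 1) → k,
      z (Fin.last e) = a ∧ (pol z).map (algebraMap k Ω) =
        C (algebraMap k Ω a) * ∏ i, (X - C (x i)) := by
  set P : Polynomial Ω := C (algebraMap k Ω a) * ∏ i, (X - C (x i)) with hP
  have hmon : (∏ i, (X - C (x i)) : Polynomial Ω).Monic := monic_prod_of_monic _ _ fun i _ => monic_X_sub_C _
  have hdeg : (∏ i, (X - C (x i)) : Polynomial Ω).natDegree = e := by
    rw [natDegree_prod_of_monic _ _ fun i _ => monic_X_sub_C _]
    simp
  let F : Ω →+* Ω := (FiniteField.frobeniusAlgHom k Ω : Ω →+* Ω)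
  have hF : ∀ y, F y = y ^ Fintype.card k := fun y => rfl
  have hmap : P.map F = P := by
    rw [hP, Polynomial.map_mul, map_C, hF, ← map_pow, FiniteField.pow_card, Polynomial.map_prod]
    congr 1
    have h1 : ∀ i, (X - C (x i)).map F = X - C (x (σ i)) := by
      intro i
      rw [Polynomial.map_sub, map_X, map_C, hF, hx]
    simp only [h1]
    exact Equiv.prod_comp σ (fun i => X - C (x i))
  have hc : ∀ n, ∃ c : k, algebraMap k Ω c = P.coeff n := by
    intro n
    apply Pool.Agent.N614.BD.LNO.mem_of_pow
    have h1 := congrArg (fun Q : Polynomial Ω => Q.coeff n) hmap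
    simp only [coeff_map] at h1
    exact h1
  choose c hc using hc
  refine ⟨fun i => c i, ?_, ?_⟩
  · apply (algebraMap k Ω).injective
    change algebraMap k Ω (c ((Fin.last e : Fin (e + 1)) : ℕ)) = _
    rw [hc, hP, coeff_C_mul, Fin.val_last]
    have h1 : (∏ i, (X - C (x i)) : Polynomial Ω).coeff e = 1 := by
      have := hmon.coeff_natDegree
      rwa [hdeg] at this
    rw [h1, mul_one]
  · ext n
    rw [coeff_map, pol_coeff]
    split_ifs with h
    · exact hc n
    · rw [map_zero, hP, coeff_C_mul, coeff_eq_zero_of_natDegree_lt (by rw [hdeg]; omega), mul_zero]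

theorem exists_perm (x y : Fin e → Ω) (hx : Function.Injective x)
    (h : (∏ i, (X - C (x i)) : Polynomial Ω) = ∏ i, (X - C (y i))) :
    ∃ π : Equiv.Perm (Fin e), ∀ i, x i = y (π i) := by
  have h1 : ∀ i, ∃ j, x i = y j := by
    intro i
    have h2 : (∏ i, (X - C (y i)) : Polynomial Ω).eval (x i) = 0 := by
      rw [← h, eval_prod]
      exact Finset.prod_eq_zero (Finset.mem_univ i) (by simp)
    rw [eval_prod, Finset.prod_eq_zero_iff] at h2
    obtain ⟨j, -, hj⟩ := h2
    refine ⟨j, ?_⟩
    rw [eval_sub, eval_X, eval_C, sub_eq_zero] at hj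
    exact hj
  choose f hf using h1
  have hinj : Function.Injective f := by
    intro i j hij
    apply hx
    rw [hf i, hf j, hij]
  exact ⟨Equiv.ofBijective f (Finite.injective_iff_bijective.1 hinj), fun i => hf i⟩

end

/-- POC -/
theorem main : S_POC := by
  classical
  intro e
  refine ⟨4 * e ^ 2 + 4, ?_⟩
  intro k Ω _ _ _ _ _ _ hq σ
  set q := Fintype.card k with hqd
  obtain ⟨ι, _, b, hb⟩ := Pool.Agent.N572.HX.TSZ.exists_basis k Ω e σ
  have hι : Fintype.card ι = e := by
    have h1 := Module.finrank_eq_card_basis b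
    rw [Module.finrank_fintype_fun_eq_card, Fintype.card_fin] at h1
    exact h1.symm
  -- the twisted vectors
  set x : (ι → k) → Fin e → Ω := fun c i => ∑ s, algebraMap k Ω (c s) * b s i with hxd
  have hx : ∀ c i, x c i ^ q = x c (σ i) := by
    intro c i
    have h1 : x c i ^ q = ∑ s : ι, (algebraMap k Ω (c s) * b s i) ^ q :=
      map_sum (FiniteField.frobeniusAlgHom k Ω) _ _
    rw [h1]
    refine Finset.sum_congr rfl fun s _ => ?_
    rw [mul_pow, hb s i, ← map_pow, FiniteField.pow_card]
  have hxsum : ∀ c, x c = ∑ s, algebraMap k Ω (c s) • b s := by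
    intro c
    funext i
    rw [Finset.sum_apply]
    rfl
  have hxinj : Function.Injective x := by
    intro c c' h
    have h1 : ∑ s, (algebraMap k Ω (c s) - algebraMap k Ω (c' s)) • b s = 0 := by
      simp only [sub_smul, Finset.sum_sub_distrib]
      rw [← hxsum, ← hxsum, h, sub_self]
    have h2 := (linearIndependent_iff'.1 b.linearIndependent) Finset.univ _ h1
    funext s
    exact (algebraMap k Ω).injective (sub_eq_zero.1 (h2 s (Finset.mem_univ s)))
  -- coincidences
  have hbad : ∀ i j : Fin e, i ≠ j →
      q * (Finset.univ.filter fun c : ι → k => x c i = x c j).card ≤ q ^ e := by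
    intro i j hij
    have hs : ∃ s, b s i ≠ b s j := by
      by_contra hcon
      push Not at hcon
      have h1 := b.sum_repr (Pi.single i 1 : Fin e → Ω)
      have h2 := congrFun h1 i
      have h3 := congrFun h1 j
      rw [Finset.sum_apply] at h2 h3
      simp only [Pi.smul_apply, smul_eq_mul, hcon] at h2 h3
      rw [h2] at h3
      rw [Pi.single_eq_same, Pi.single_eq_of_ne hij.symm] at h3
      exact one_ne_zero h3
    obtain ⟨s, hs⟩ := hs
    -- the map (u, c) ↦ c with the coordinate s changed by u
    have hle : ((Finset.univ : Finset k) ×ˢ (Finset.univ.filter fun c : ι → k => x c i = x c j)).card ≤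
        (Finset.univ : Finset (ι → k)).card := by
      refine Finset.card_le_card_of_injOn (fun p : k × (ι → k) =>
        Function.update p.2 s (p.2 s + p.1)) (fun _ _ => Finset.mem_univ _) ?_
      rintro ⟨u, c⟩ hc ⟨u', c'⟩ hc' heq
      simp only [Finset.coe_product, Set.mem_prod, Finset.mem_coe, Finset.mem_univ, true_and,
        Finset.mem_filter] at hc hc'
      change Function.update c s (c s + u) = Function.update c' s (c' s + u') at heq
      have h1 : ∀ t, t ≠ s → c t = c' t := by
        intro t ht
        have := congrFun heq t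
        rwa [Function.update_of_ne ht, Function.update_of_ne ht] at this
      have h2 : c s + u = c' s + u' := by
        have := congrFun heq s
        rwa [Function.update_self, Function.update_self] at this
      have h3 : ∀ c : ι → k, x c i = x c j → algebraMap k Ω (c s) * (b s i - b s j) =
          - ∑ t ∈ Finset.univ.erase s, algebraMap k Ω (c t) * (b t i - b t j) := by
        intro c hc
        have h4 : ∑ t, algebraMap k Ω (c t) * (b t i - b t j) = 0 := by
          simp only [mul_sub, Finset.sum_sub_distrib]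
          rw [sub_eq_zero]
          exact hc
        rw [← Finset.add_sum_erase _ _ (Finset.mem_univ s)] at h4
        exact eq_neg_of_add_eq_zero_left h4
      have h4 : algebraMap k Ω (c s) * (b s i - b s j) =
          algebraMap k Ω (c' s) * (b s i - b s j) := by
        rw [h3 c hc, h3 c' hc']
        congr 1
        refine Finset.sum_congr rfl fun t ht => ?_
        rw [h1 t (Finset.ne_of_mem_erase ht)]
      have h5 : c s = c' s :=
        (algebraMap k Ω).injective (mul_right_cancel₀ (sub_ne_zero.2 hs) h4)
      have h6 : c = c' := by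
        funext t
        by_cases ht : t = s
        · rw [ht, h5]
        · exact h1 t ht
      have h7 : u = u' := by
        rw [h5] at h2
        exact add_left_cancel h2
      rw [h6, h7]
    rw [Finset.card_product, Finset.card_univ, Finset.card_univ, Fintype.card_fun, hι] at hle
    exact hle
  -- good vectors
  set good : Finset (ι → k) := Finset.univ.filter fun c => Function.Injective (x c) with hgood
  set bad : Finset (ι → k) := Finset.univ.filter fun c => ¬ Function.Injective (x c) with hbadd
  have hgb : good.card + bad.card = q ^ e := by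
    have h1 := Finset.card_filter_add_card_filter_not (s := (Finset.univ : Finset (ι → k)))
      (fun c => Function.Injective (x c))
    rw [Finset.card_univ, Fintype.card_fun, hι] at h1
    exact h1
  have hbadle : q * bad.card ≤ e ^ 2 * q ^ e := by
    have h1 : bad ⊆ (Finset.univ : Finset (Fin e × Fin e)).biUnion fun p =>
        if p.1 ≠ p.2 then Finset.univ.filter (fun c : ι → k => x c p.1 = x c p.2) else ∅ := by
      intro c hc
      rw [hbadd, Finset.mem_filter, Function.Injective] at hc
      have h2 := hc.2
      push Not at h2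
      obtain ⟨i, j, h3, h4⟩ := h2
      rw [Finset.mem_biUnion]
      refine ⟨(i, j), Finset.mem_univ _, ?_⟩
      rw [if_pos h4, Finset.mem_filter]
      exact ⟨Finset.mem_univ _, h3⟩
    have h2 := (Finset.card_le_card h1).trans Finset.card_biUnion_le
    calc q * bad.card ≤ q * ∑ p : Fin e × Fin e, (if p.1 ≠ p.2 then
          Finset.univ.filter (fun c : ι → k => x c p.1 = x c p.2) else ∅).card :=
          Nat.mul_le_mul_left _ h2
      _ = ∑ p : Fin e × Fin e, q * (if p.1 ≠ p.2 then
          Finset.univ.filter (fun c : ι → k => x c p.1 = x c p.2) else ∅).card :=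
          Finset.mul_sum _ _ _
      _ ≤ ∑ _p : Fin e × Fin e, q ^ e := by
          refine Finset.sum_le_sum fun p _ => ?_
          by_cases hp : p.1 ≠ p.2
          · rw [if_pos hp]
            exact hbad _ _ hp
          · rw [if_neg hp]
            simp
      _ = e ^ 2 * q ^ e := by
          rw [Finset.sum_const, Finset.card_univ, Fintype.card_prod, Fintype.card_fin, smul_eq_mul,
            sq]
  -- the polynomials
  have hdesc : ∀ p : (ι → k) × kˣ, ∃ z : Fin (e + 1) → k,
      z (Fin.last e) = (p.2 : k) ∧ (pol z).map (algebraMap k Ω) =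
        C (algebraMap k Ω (p.2 : k)) * ∏ i, (X - C (x p.1 i)) := fun p =>
    descend σ (x p.1) (hx p.1) _
  choose z hz1 hz2 using hdesc
  set S : Finset ((ι → k) × kˣ) := good ×ˢ Finset.univ with hS
  have hfib : ∀ w ∈ S.image z, (S.filter fun p => z p = w).card ≤ e.factorial := by
    intro w hw
    obtain ⟨p₀, hp₀, rfl⟩ := Finset.mem_image.1 hw
    have hπ : ∀ p ∈ S.filter (fun p => z p = z p₀), ∃ π : Equiv.Perm (Fin e),
        ∀ i, x p.1 i = x p₀.1 (π i) := by
      intro p hp
      rw [Finset.mem_filter] at hp
      have hg : Function.Injective (x p.1) := by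
        have := (Finset.mem_product.1 hp.1).1
        rw [hgood, Finset.mem_filter] at this
        exact this.2
      apply exists_perm _ _ hg
      have h1 := hz2 p
      have h2 := hz2 p₀
      rw [hp.2] at h1
      rw [h1, ← hz1 p, hp.2, hz1 p₀] at h2
      have h3 : (C (algebraMap k Ω (p₀.2 : k)) : Polynomial Ω) ≠ 0 := by
        rw [Ne, C_eq_zero, map_eq_zero]
        exact p₀.2.ne_zero
      exact mul_left_cancel₀ h3 h2
    choose! π hπ using hπ
    have h1 : (S.filter fun p => z p = z p₀).card ≤
        (Finset.univ : Finset (Equiv.Perm (Fin e))).card := by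
      refine Finset.card_le_card_of_injOn π (fun _ _ => Finset.mem_univ _) ?_
      intro p hp p' hp' heq
      have h2 := hπ p hp
      have h3 := hπ p' hp'
      have hp1 := (Finset.mem_filter.1 (Finset.mem_coe.1 hp)).2
      have hp2 := (Finset.mem_filter.1 (Finset.mem_coe.1 hp')).2
      have h4 : p.1 = p'.1 := by
        apply hxinj
        funext i
        rw [h2 i, h3 i, heq]
      have h5 : p.2 = p'.2 := by
        apply Units.ext
        rw [← hz1 p, ← hz1 p', hp1, hp2]
      exact Prod.ext h4 h5
    rwa [Finset.card_univ, Fintype.card_perm, Fintype.card_fin] at h1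
  have hcard := Finset.card_le_mul_card_image S e.factorial hfib
  have himg : (S.image z).card ≤ {z : Fin (e + 1) → k | HasType Ω z σ}.ncard := by
    rw [← Set.ncard_coe_finset]
    refine Set.ncard_le_ncard ?_ (Set.toFinite _)
    intro w hw
    obtain ⟨p, hp, rfl⟩ := Finset.mem_image.1 (Finset.mem_coe.1 hw)
    have hg : Function.Injective (x p.1) := by
      have := (Finset.mem_product.1 hp).1
      rw [hgood, Finset.mem_filter] at this
      exact this.2
    refine ⟨x p.1, ⟨?_, hg, ?_⟩, hx p.1⟩
    · rw [hz1]
      exact p.2.ne_zero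
    · rw [hz2, hz1]
  have hScard : S.card = good.card * (q - 1) := by
    rw [hS, Finset.card_product, Finset.card_univ, Fintype.card_units]
  rw [hScard] at hcard
  -- numerics
  set n := {z : Fin (e + 1) → k | HasType Ω z σ}.ncard with hn
  have hH : good.card * (q - 1) ≤ e.factorial * n := hcard.trans (Nat.mul_le_mul_left _ himg)
  have hq1 : 1 ≤ q := by omega
  have hq0 : 0 < q := by omega
  obtain ⟨q', hq'⟩ : ∃ q', q = q' + 1 := ⟨q - 1, by omega⟩
  have hq1' : q - 1 = q' := by omega
  rw [hq1'] at hH
  have hQ : 0 < q ^ e := pow_pos hq0 e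
  have key : q * q ^ (e + 1) ≤ q * (2 * e.factorial * n) := by
    have h1 : (q : ℤ) * (good.card : ℤ) = q * (q ^ e : ℕ) - q * bad.card := by
      have : (good.card : ℤ) + bad.card = (q ^ e : ℕ) := by exact_mod_cast hgb
      rw [← this]
      ring
    have h2 : (q : ℤ) * bad.card ≤ (e : ℤ) ^ 2 * (q ^ e : ℕ) := by exact_mod_cast hbadle
    have h3 : (good.card : ℤ) * q' ≤ e.factorial * n := by exact_mod_cast hH
    have h4 : (q : ℤ) = q' + 1 := by exact_mod_cast hq'
    have h5 : 4 * (e : ℤ) ^ 2 + 4 ≤ q := by exact_mod_cast hq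
    have h6 : (0 : ℤ) < (q ^ e : ℕ) := by exact_mod_cast hQ
    have hq'0 : (0 : ℤ) ≤ q' := Int.natCast_nonneg _
    -- q * good ≥ (q - e^2) Q
    have h7 : ((q : ℤ) - (e : ℤ) ^ 2) * (q ^ e : ℕ) ≤ q * good.card := by
      rw [h1, sub_mul]
      linarith
    have h8 : (q : ℤ) ^ 2 ≤ 2 * q' * (q - (e : ℤ) ^ 2) := by
      have h9 : 3 * (q : ℤ) ≤ 4 * (q - (e : ℤ) ^ 2) := by linarith
      have h10 : 3 * (q : ℤ) ≤ 4 * q' := by
        have : (0 : ℤ) ≤ (e : ℤ) ^ 2 := sq_nonneg _
        linarith
      have h11 : (0 : ℤ) ≤ q := Int.natCast_nonneg _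
      have h12 := mul_le_mul h9 h10 (by positivity) (by linarith)
      nlinarith
    have h9 : (q : ℤ) ^ 2 * (q ^ e : ℕ) ≤ q * (2 * e.factorial * n) := by
      calc (q : ℤ) ^ 2 * (q ^ e : ℕ) ≤ 2 * q' * (q - (e : ℤ) ^ 2) * (q ^ e : ℕ) :=
            mul_le_mul_of_nonneg_right h8 h6.le
        _ = 2 * q' * ((q - (e : ℤ) ^ 2) * (q ^ e : ℕ)) := by ring
        _ ≤ 2 * q' * (q * good.card) := mul_le_mul_of_nonneg_left h7 (by positivity)
        _ = 2 * q * (good.card * q') := by ring
        _ ≤ 2 * q * (e.factorial * n) := mul_le_mul_of_nonneg_left h3 (by positivity)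
        _ = q * (2 * e.factorial * n) := by ring
    have h10 : (q : ℤ) ^ 2 * (q ^ e : ℕ) = ((q * q ^ (e + 1) : ℕ) : ℤ) := by
      push_cast
      ring
    rw [h10] at h9
    exact_mod_cast h9
  exact Nat.le_of_mul_le_mul_left key hq0

end Pool.Agent.N607.HL.POC
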